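import Pool.Agent.PSV.StmtsS
import Pool.Agent.Helper33_MTL.Fra

/-! PSV, module SRP (helper51): outside a set of integers of `K` with power saving the specialised
representation has an image between the images of a subgroup of finite index and of the whole group.
Edit of Helper87_HIK/SER.lean. -/

set_option autoImplicit false

namespace Pool.Agent.PSV.H51

open Polynomial NumberField Matrix Pool.Agent.MTL Pool.Agent.MTL.H34 Pool.Agent.Helper78_MT
  Pool.Agent.HIK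

theorem finite_hom (K : Type) [Field K] [NumberField K] : Finite (K →+* Om) := by
  have h : Finite (K →ₐ[ℚ] Om) := inferInstance
  exact Finite.of_equiv _ (RingHom.equivRatAlgHom (R := K) (S := Om)).symm

/-- module SRP -/
theorem srp (hcp : HcpStmt) (dek : DekStmt) (gpf : GpfStmt) : SrpStmt := by
  intro K _ _ d _ _ ℓ _ ρ hρ
  have hfin := finite_hom K
  have hcl : ∀ φ : K →+* Om, IsClosed (Gph φ : Set GT) := fun φ => (gpf K φ).2.1
  have hG : ∀ φ : K →+* Om,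
      IsCompact (((Gph φ).map ρ : Subgroup (GL d ℚ_[ℓ])) : Set (GL d ℚ_[ℓ])) := by
    intro φ
    rw [Subgroup.coe_map]
    exact (hcl φ).isCompact.image hρ
  choose U hUo hU1 hU using fun φ : K →+* Om => H33.fra d ℓ ((Gph φ).map ρ) (hG φ)
  have hWo : IsOpen (⋂ φ, U φ) := isOpen_iInter_of_finite hUo
  have hW1 : (1 : GL d ℚ_[ℓ]) ∈ ⋂ φ, U φ := Set.mem_iInter.2 hU1
  obtain ⟨N, hN⟩ := ProfiniteGrp.exist_openNormalSubgroup_sub_open_nhds_of_one (G := GT)
    (U := ρ ⁻¹' (⋂ φ, U φ)) (hWo.preimage hρ) (by rw [Set.mem_preimage, map_one]; exact hW1)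
  obtain ⟨S, hS, hS2⟩ := hcp K N.toSubgroup N.isNormal' N.isOpen'
  refine ⟨S, hS, fun a ha ψ ρa hsp => ?_⟩
  obtain ⟨π, hπ, hπ2⟩ := hsp
  obtain ⟨φ, -, hφ⟩ := hS2 a ha ψ π hπ
  refine ⟨?_, Gph φ, (gpf K φ).2.2, ?_⟩
  · rintro _ ⟨τ, rfl⟩
    obtain ⟨σ, hσ⟩ := (dek (ψ a) π hπ).2 (τ : GQ) (MulAction.mem_stabilizer_iff.1 τ.2)
    exact ⟨σ, (hπ2 σ τ hσ).symm⟩
  · have h2 : (decG π ⊓ Gph φ).map ρ = (Gph φ).map ρ := by
      apply hU φ
      · rw [Subgroup.coe_map, Subgroup.coe_inf]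
        exact (((decG_closed π).inter (hcl φ)).isCompact.image hρ).isClosed
      · exact Subgroup.map_mono inf_le_right
      · rintro g ⟨γ, hγ, rfl⟩
        obtain ⟨σ, hσ, hσ2, hσγ⟩ := hφ γ hγ
        refine ⟨ρ σ, Subgroup.mem_map_of_mem _ (Subgroup.mem_inf.2 ⟨hσ, hσ2⟩), ?_⟩
        rw [← map_inv, ← map_mul]
        exact Set.mem_iInter.1 (hN hσγ) φ
    rw [← Subgroup.coe_map, ← h2]
    rintro _ ⟨σ, hσ, rfl⟩
    obtain ⟨τ, hτ⟩ := (Subgroup.mem_inf.1 hσ).1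
    have h3 : σ • (algebraMap ℚ[X] BB X) = algebraMap ℚ[X] BB X := by
      apply Subtype.ext
      change σ (algebraMap ℚ[X] Om X) = algebraMap ℚ[X] Om X
      rw [IsScalarTower.algebraMap_apply ℚ[X] (RatFunc ℚ) Om]
      exact σ.commutes _
    have h4 : τ • (ψ a : QB) = ψ a := by
      have h5 := hτ (algebraMap ℚ[X] BB X)
      rw [h3, hπ] at h5
      exact h5.symm
    exact ⟨⟨τ, MulAction.mem_stabilizer_iff.2 h4⟩, hπ2 σ ⟨τ, MulAction.mem_stabilizer_iff.2 h4⟩ hτ⟩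

end Pool.Agent.PSV.H51
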